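import Pool.Agent.N599.FPP.Core

/-!
# The elimination procedure and its correctness
-/

set_option autoImplicit false

namespace Pool.Agent.N599.FPP

/-- The points of `X` with exactly one strict lower bound in `X`. -/
def cand1 (l : ℕ → ℕ → Bool) (X : List ℕ) : List ℕ :=
  X.filter fun w => decide ((X.filter fun z => l z w).length = 1)

/-- The pairs `(m, m')` of distinct points of `X` such that `m` is minimal in `X` and all strict
upper bounds of `m` in `X` are strict upper bounds of `m'`. -/
def cand2 (l : ℕ → ℕ → Bool) (X : List ℕ) : List (ℕ × ℕ) :=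
  (X.flatMap fun m => X.map fun m' => (m, m')).filter fun p =>
    (!(decide (p.1 = p.2)) && X.all (fun z => !(l z p.1))) && X.all (fun x => !(l p.1 x) || l p.2 x)

/-- One step of the elimination: the state is the list of the remaining points and a flag. -/
def red (l : ℕ → ℕ → Bool) (T : List (ℕ × ℕ)) (s : List ℕ × Bool) : List ℕ × Bool :=
  match cand1 l s.1 with
  | w :: _ => (s.1.filter (fun x => !(decide (x = w))), s.2)
  | [] => match cand2 l s.1 with
    | p :: _ => (s.1.filter (fun x => !(decide (x = p.1))), s.2 && decide (p ∈ T))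
    | [] => s

/-- The elimination of the points of `X`; `T` lists the pairs whose common upper bounds have the
fixed point property. -/
def test (l : ℕ → ℕ → Bool) (T : List (ℕ × ℕ)) (X : List ℕ) : Bool :=
  let s := (red l T)^[X.length] (X, true)
  s.2 && !(s.1.isEmpty)

/-- The common strict upper bounds of `a` and `b`. -/
def upp (l : ℕ → ℕ → Bool) (n : ℕ) (p : ℕ × ℕ) : List ℕ :=
  (List.range n).filter fun x => l p.1 x && l p.2 x

/-- All pairs. -/
def prs (n : ℕ) : List (ℕ × ℕ) := (List.range n).flatMap fun a => (List.range n).map fun b => (a, b)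

/-- One round of improvement of the table. -/
def round (l : ℕ → ℕ → Bool) (n : ℕ) (T : List (ℕ × ℕ)) : List (ℕ × ℕ) :=
  (prs n).filter fun p => test l T (upp l n p)

/-- The decision procedure. -/
def decideFP (l : ℕ → ℕ → Bool) (n : ℕ) : Bool :=
  test l ((round l n)^[n] []) (List.range n)

/-! ### Interval orders -/

/-- The sets of strict upper bounds form a chain. -/
def Chain (n : ℕ) (s : ℕ → ℕ → Prop) : Prop :=
  ∀ a < n, ∀ b < n, (∀ x < n, s a x → s b x) ∨ (∀ x < n, s b x → s a x)

/-- `l` is a strict order on `{0, ..., n - 1}`, the intersection of two orders with linearly ordered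
sets of strict upper bounds. -/
structure Good (l : ℕ → ℕ → Bool) (n : ℕ) : Prop where
  irr : ∀ x, ¬ l x x = true
  tr : ∀ x y z, l x y = true → l y z = true → l x z = true
  lt : ∀ x y, l x y = true → x < n ∧ y < n
  real : ∃ s₁ s₂ : ℕ → ℕ → Prop, Chain n s₁ ∧ Chain n s₂ ∧ (∀ x, ¬ s₁ x x) ∧
    ∀ x < n, ∀ y < n, (l x y = true ↔ s₁ x y ∧ s₂ x y)

theorem exists_max (n : ℕ) (s : ℕ → ℕ → Prop) (hs : Chain n s) (Y : Finset ℕ) (hY : Y.Nonempty)
    (hYn : ∀ y ∈ Y, y < n) : ∃ c ∈ Y, ∀ z ∈ Y, ∀ x < n, s z x → s c x := by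
  classical
  obtain ⟨c, hc, hmax⟩ := Finset.exists_max_image Y
    (fun z => ((Finset.range n).filter (fun x => s z x)).card) hY
  refine ⟨c, hc, fun z hz x hx hzx => ?_⟩
  rcases hs z (hYn z hz) c (hYn c hc) with h | h
  · exact h x hx hzx
  · by_contra hcx
    have h1 : (Finset.range n).filter (fun x => s c x) ⊂ (Finset.range n).filter (fun x => s z x) := by
      rw [Finset.ssubset_iff_of_subset]
      · refine ⟨x, ?_, ?_⟩
        · simp only [Finset.mem_filter, Finset.mem_range]
          exact ⟨hx, hzx⟩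
        · simp only [Finset.mem_filter, Finset.mem_range, not_and]
          exact fun _ => hcx
      · intro y hy
        simp only [Finset.mem_filter, Finset.mem_range] at hy ⊢
        exact ⟨hy.1, h y hy.1 hy.2⟩
    have h2 := Finset.card_lt_card h1
    have h3 := hmax z hz
    omega

/-- In an order of interval dimension at most two with at least two points, one of the two kinds of
deletions is possible. -/
theorem exists_step {l : ℕ → ℕ → Bool} {n : ℕ} (hg : Good l n) (X : Finset ℕ)
    (hX : ∀ x ∈ X, x < n) (h2 : 1 < X.card)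
    (h1 : ∀ w ∈ X, ¬ ∃ c ∈ X, l c w = true ∧ ∀ z ∈ X, l z w = true → z = c) :
    ∃ m ∈ X, ∃ m' ∈ X, m ≠ m' ∧ (∀ z ∈ X, ¬ l z m = true) ∧
      ∀ x ∈ X, l m x = true → l m' x = true := by
  classical
  obtain ⟨s₁, s₂, hc1, hc2, hirr, hr⟩ := hg.real
  obtain ⟨c, hc, hcmax⟩ := exists_max n s₁ hc1 X (Finset.card_pos.1 (by omega)) hX
  have hne : (X.erase c).Nonempty := by
    rw [← Finset.card_pos, Finset.card_erase_of_mem hc]
    omega
  obtain ⟨e, he', hemax⟩ := exists_max n s₁ hc1 (X.erase c) hne
    (fun y hy => hX y (Finset.mem_of_mem_erase hy))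
  have he : e ∈ X := Finset.mem_of_mem_erase he'
  have hec : e ≠ c := Finset.ne_of_mem_erase he'
  -- a point above `c` in the first order but not above `e` is minimal
  have hmin : ∀ x ∈ X, ¬ s₁ e x → ∀ z ∈ X, ¬ l z x = true := by
    intro x hx hex z hz hzx
    have hz1 := ((hr z (hX z hz) x (hX x hx)).1 hzx).1
    have hzc : ∀ z' ∈ X, l z' x = true → z' = c := by
      intro z' hz' hz'x
      by_contra hne'
      exact hex (hemax z' (Finset.mem_erase.2 ⟨hne', hz'⟩) x (hX x hx)
        ((hr z' (hX z' hz') x (hX x hx)).1 hz'x).1)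
    have hzeq := hzc z hz hzx
    subst hzeq
    exact h1 x hx ⟨z, hz, hzx, hzc⟩
  have hcmin : ∀ z ∈ X, ¬ l z c = true := by
    intro z hz hzc
    exact hirr c (hcmax z hz c (hX c hc) ((hr z (hX z hz) c (hX c hc)).1 hzc).1)
  have hemin : ∀ z ∈ X, ¬ l z e = true := hmin e he (hirr e)
  have hce : ∀ x ∈ X, l c x = true → s₁ e x := by
    intro x hx hcx
    by_contra hex
    exact hmin x hx hex c hc hcx
  rcases hc2 c (hX c hc) e (hX e he) with h | h
  · refine ⟨c, hc, e, he, hec.symm, hcmin, fun x hx hcx => ?_⟩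
    rw [hr e (hX e he) x (hX x hx)]
    exact ⟨hce x hx hcx, h x (hX x hx) ((hr c (hX c hc) x (hX x hx)).1 hcx).2⟩
  · refine ⟨e, he, c, hc, hec, hemin, fun x hx hex => ?_⟩
    rw [hr c (hX c hc) x (hX x hx)]
    have h3 := (hr e (hX e he) x (hX x hx)).1 hex
    exact ⟨hcmax e he x (hX x hx) h3.1, h x (hX x hx) h3.2⟩

/-! ### Correctness -/

theorem mem_cand1 {l : ℕ → ℕ → Bool} {X : List ℕ} (hnd : X.Nodup) {w : ℕ} :
    w ∈ cand1 l X ↔ w ∈ X ∧ ∃ c ∈ X, l c w = true ∧ ∀ z ∈ X, l z w = true → z = c := by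
  unfold cand1
  rw [List.mem_filter]
  refine and_congr_right fun hw => ?_
  rw [decide_eq_true_iff, List.length_eq_one_iff]
  constructor
  · rintro ⟨c, hc⟩
    have h1 : ∀ z, z ∈ X.filter (fun z => l z w) ↔ z = c := by
      intro z
      rw [hc, List.mem_singleton]
    refine ⟨c, ?_, ?_, fun z hz hzw => ?_⟩
    · exact (List.mem_filter.1 ((h1 c).2 rfl)).1
    · exact (List.mem_filter.1 ((h1 c).2 rfl)).2
    · exact (h1 z).1 (List.mem_filter.2 ⟨hz, hzw⟩)
  · rintro ⟨c, hc, hcw, h⟩
    refine ⟨c, ?_⟩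
    have h1 : (X.filter (fun z => l z w)).Nodup := hnd.filter _
    have h2 : ∀ z ∈ X.filter (fun z => l z w), z = c := by
      intro z hz
      rw [List.mem_filter] at hz
      exact h z hz.1 hz.2
    have h3 : c ∈ X.filter (fun z => l z w) := List.mem_filter.2 ⟨hc, hcw⟩
    have h4 : (X.filter (fun z => l z w)) = List.replicate (X.filter (fun z => l z w)).length c :=
      List.eq_replicate_iff.2 ⟨rfl, h2⟩
    rw [h4] at h1 h3
    rw [List.nodup_replicate] at h1
    rw [h4]
    have h5 : (X.filter (fun z => l z w)).length = 1 := by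
      have : (X.filter (fun z => l z w)).length ≠ 0 := by
        intro h0
        rw [h0] at h3
        simp at h3
      omega
    rw [h5]
    rfl

theorem mem_cand2 {l : ℕ → ℕ → Bool} {X : List ℕ} {p : ℕ × ℕ} :
    p ∈ cand2 l X ↔ p.1 ∈ X ∧ p.2 ∈ X ∧ p.1 ≠ p.2 ∧ (∀ z ∈ X, ¬ l z p.1 = true) ∧
      ∀ x ∈ X, l p.1 x = true → l p.2 x = true := by
  unfold cand2
  rw [List.mem_filter]
  have h1 : p ∈ (X.flatMap fun m => X.map fun m' => (m, m')) ↔ p.1 ∈ X ∧ p.2 ∈ X := by
    simp only [List.mem_flatMap, List.mem_map]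
    constructor
    · rintro ⟨a, ha, b, hb, rfl⟩
      exact ⟨ha, hb⟩
    · rintro ⟨h1, h2⟩
      exact ⟨p.1, h1, p.2, h2, rfl⟩
  rw [h1]
  simp only [Bool.and_eq_true, Bool.not_eq_true', decide_eq_false_iff_not, List.all_eq_true,
    Bool.or_eq_true]
  constructor
  · rintro ⟨⟨h1, h2⟩, ⟨h3, h4⟩, h5⟩
    refine ⟨h1, h2, h3, fun z hz => by rw [h4 z hz]; simp, fun x hx hx1 => ?_⟩
    rcases h5 x hx with h6 | h6
    · rw [hx1] at h6
      simp at h6
    · exact h6
  · rintro ⟨h1, h2, h3, h4, h5⟩
    refine ⟨⟨h1, h2⟩, ⟨h3, fun z hz => by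
      have := h4 z hz
      simpa using this⟩, fun x hx => ?_⟩
    by_cases h6 : l p.1 x = true
    · exact Or.inr (h5 x hx h6)
    · left
      simpa using h6

/-- The set of the elements of a list. -/
def st (X : List ℕ) : Set ℕ := {x | x ∈ X}

/-- The order relation of `l`. -/
abbrev rl (l : ℕ → ℕ → Bool) : ℕ → ℕ → Prop := fun x y => l x y = true

theorem st_finite (X : List ℕ) : (st X).Finite := by
  classical
  refine (X.toFinset.finite_toSet).subset fun x hx => ?_
  simpa [st] using hx

/-- The invariant of the elimination of the points of `S`. -/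
structure Inv (l : ℕ → ℕ → Bool) (S : List ℕ) (s : List ℕ × Bool) : Prop where
  nodup : s.1.Nodup
  sub : ∀ x ∈ s.1, x ∈ S
  low : ∀ x ∈ S, x ∉ s.1 → ∀ m ∈ s.1, ∀ m' ∈ s.1, l m x = true → l m' x = true → m = m'
  fp : FP (rl l) (st S) ↔ s.2 = true ∧ FP (rl l) (st s.1)

theorem st_filter_ne (X : List ℕ) (w : ℕ) :
    st (X.filter (fun x => !(decide (x = w)))) = st X \ {w} := by
  ext x
  simp [st, List.mem_filter]

theorem inv_red {l : ℕ → ℕ → Bool} {n : ℕ} (hg : Good l n) {S : List ℕ} {T : List (ℕ × ℕ)}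
    (hup : ∀ x ∈ S, ∀ y, l x y = true → y ∈ S)
    (hT : ∀ m ∈ S, ∀ m' ∈ S, (m, m') ∈ T ↔ FP (rl l) (st (upp l n (m, m'))))
    {s : List ℕ × Bool} (hs : Inv l S s) : Inv l S (red l T s) := by
  unfold red
  cases h1 : cand1 l s.1 with
  | cons w t =>
    simp only
    have hw : w ∈ cand1 l s.1 := by rw [h1]; simp
    rw [mem_cand1 hs.nodup] at hw
    obtain ⟨hwX, c, hc, hcw, hcu⟩ := hw
    refine ⟨hs.nodup.filter _, fun x hx => hs.sub x (List.mem_filter.1 hx).1, ?_, ?_⟩
    · intro x hx hxn m hm m' hm' hmx hm'x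
      have hm1 := (List.mem_filter.1 hm).1
      have hm1' := (List.mem_filter.1 hm').1
      by_cases hxX : x ∈ s.1
      · have hxw : x = w := by
          by_contra hne
          exact hxn (List.mem_filter.2 ⟨hxX, by simp [hne]⟩)
        subst hxw
        rw [hcu m hm1 hmx, hcu m' hm1' hm'x]
      · exact hs.low x hx hxX m hm1 m' hm1' hmx hm'x
    · rw [hs.fp, st_filter_ne, FP_irreducible (lt := rl l) (S := st s.1) (st_finite s.1) hg.irr hg.tr (w := w)
        (c := c) hwX hc hcw hcu]
  | nil =>
    simp only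
    cases h2 : cand2 l s.1 with
    | nil => exact hs
    | cons p t =>
      simp only
      have hp : p ∈ cand2 l s.1 := by rw [h2]; simp
      rw [mem_cand2] at hp
      obtain ⟨hm, hm', hne, hmin, hsub⟩ := hp
      refine ⟨hs.nodup.filter _, fun x hx => hs.sub x (List.mem_filter.1 hx).1, ?_, ?_⟩
      · intro x hx hxn m hm1 m' hm1' hmx hm'x
        have hm2 := (List.mem_filter.1 hm1).1
        have hm2' := (List.mem_filter.1 hm1').1
        by_cases hxX : x ∈ s.1
        · have hxw : x = p.1 := by
            by_contra hne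
            exact hxn (List.mem_filter.2 ⟨hxX, by simp [hne]⟩)
          subst hxw
          exact absurd hmx (hmin m hm2)
        · exact hs.low x hx hxX m hm2 m' hm2' hmx hm'x
      · rw [hs.fp, st_filter_ne, FP_minimal (lt := rl l) (S := st s.1) hg.irr hg.tr (m := p.1) (m' := p.2) hm hm'
          hne.symm hmin hsub]
        have h3 : FP (rl l) {x | x ∈ st s.1 ∧ rl l p.1 x} ↔ FP (rl l) (st (upp l n p)) := by
          refine FP_congr fun x => ?_
          simp only [st, upp, Set.mem_ofPred_eq, List.mem_filter, List.mem_range, Bool.and_eq_true]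
          constructor
          · rintro ⟨hx, hpx⟩
            exact ⟨(hg.lt _ _ hpx).2, hpx, hsub x hx hpx⟩
          · rintro ⟨_, hpx, hpx'⟩
            refine ⟨?_, hpx⟩
            by_contra hxn
            exact hne (hs.low x (hup _ (hs.sub _ hm) _ hpx) hxn _ hm _ hm' hpx hpx')
        rw [h3, Bool.and_eq_true, decide_eq_true_iff, hT p.1 (hs.sub _ hm) p.2 (hs.sub _ hm')]
        tauto

theorem length_filter_ne {X : List ℕ} (hnd : X.Nodup) {w : ℕ} (hw : w ∈ X) :
    (X.filter (fun x => !(decide (x = w)))).length + 1 = X.length := by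
  have h1 : X.filter (fun x => !(decide (x = w))) = X.erase w := by
    rw [hnd.erase_eq_filter]
    rfl
  rw [h1, List.length_erase_of_mem hw]
  have : 0 < X.length := List.length_pos_of_mem hw
  omega

/-- A step deletes a point as long as there are at least two. -/
theorem length_red {l : ℕ → ℕ → Bool} {n : ℕ} (hg : Good l n) {S : List ℕ} {T : List (ℕ × ℕ)}
    (hS : ∀ x ∈ S, x < n) {s : List ℕ × Bool} (hs : Inv l S s) :
    ((red l T s).1.length + 1 = s.1.length ∧ 2 ≤ s.1.length) ∨
      (red l T s = s ∧ s.1.length ≤ 1) := by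
  unfold red
  cases h1 : cand1 l s.1 with
  | cons w t =>
    simp only
    have hw : w ∈ cand1 l s.1 := by rw [h1]; simp
    rw [mem_cand1 hs.nodup] at hw
    obtain ⟨hwX, c, hc, hcw, hcu⟩ := hw
    left
    refine ⟨length_filter_ne hs.nodup hwX, ?_⟩
    by_contra hlt
    have h3 : s.1.length = 1 := by
      have := List.length_pos_of_mem hwX
      omega
    obtain ⟨a, ha⟩ := List.length_eq_one_iff.1 h3
    rw [ha, List.mem_singleton] at hwX hc
    subst hwX
    subst hc
    exact hg.irr _ hcw
  | nil =>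
    simp only
    cases h2 : cand2 l s.1 with
    | nil =>
      simp only
      right
      refine ⟨trivial, ?_⟩
      by_contra hlt
      have hcard : 1 < s.1.toFinset.card := by
        rw [List.toFinset_card_of_nodup hs.nodup]
        omega
      obtain ⟨m, hm, m', hm', hne, hmin, hsub⟩ := exists_step hg s.1.toFinset
        (fun x hx => hS x (hs.sub x (List.mem_toFinset.1 hx))) hcard (by
          intro w hw hc
          have : w ∈ cand1 l s.1 := by
            rw [mem_cand1 hs.nodup]
            refine ⟨List.mem_toFinset.1 hw, ?_⟩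
            obtain ⟨c, hc, hcw, h⟩ := hc
            exact ⟨c, List.mem_toFinset.1 hc, hcw, fun z hz => h z (List.mem_toFinset.2 hz)⟩
          rw [h1] at this
          simp at this)
      have : (m, m') ∈ cand2 l s.1 := by
        rw [mem_cand2]
        exact ⟨List.mem_toFinset.1 hm, List.mem_toFinset.1 hm', hne,
          fun z hz => hmin z (List.mem_toFinset.2 hz),
          fun x hx => hsub x (List.mem_toFinset.2 hx)⟩
      rw [h2] at this
      simp at this
    | cons p t =>
      simp only
      have hp : p ∈ cand2 l s.1 := by rw [h2]; simp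
      rw [mem_cand2] at hp
      obtain ⟨hm, hm', hne, hmin, hsub⟩ := hp
      left
      refine ⟨length_filter_ne hs.nodup hm, ?_⟩
      by_contra hlt
      have h3 : s.1.length = 1 := by
        have := List.length_pos_of_mem hm
        omega
      obtain ⟨a, ha⟩ := List.length_eq_one_iff.1 h3
      rw [ha, List.mem_singleton] at hm hm'
      exact hne (hm.trans hm'.symm)

theorem test_correct {l : ℕ → ℕ → Bool} {n : ℕ} (hg : Good l n) {S : List ℕ} {T : List (ℕ × ℕ)}
    (hnd : S.Nodup) (hS : ∀ x ∈ S, x < n) (hup : ∀ x ∈ S, ∀ y, l x y = true → y ∈ S)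
    (hT : ∀ m ∈ S, ∀ m' ∈ S, (m, m') ∈ T ↔ FP (rl l) (st (upp l n (m, m')))) :
    test l T S = true ↔ FP (rl l) (st S) := by
  have h0 : Inv l S (S, true) := by
    refine ⟨hnd, fun x hx => hx, fun x hx hxn => absurd hx hxn, ?_⟩
    simp
  have key : ∀ k : ℕ, Inv l S ((red l T)^[k] (S, true)) ∧
      (((red l T)^[k] (S, true)).1.length + k = S.length ∨
        ((red l T)^[k] (S, true)).1.length ≤ 1) ∧
      (S ≠ [] → ((red l T)^[k] (S, true)).1 ≠ []) := by
    intro k
    induction k with
    | zero => exact ⟨h0, Or.inl rfl, fun h => h⟩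
    | succ k ih =>
      rw [Function.iterate_succ_apply']
      obtain ⟨i1, i2, i3⟩ := ih
      refine ⟨inv_red hg hup hT i1, ?_, ?_⟩
      · rcases length_red (T := T) hg hS i1 with h | h
        · rcases i2 with h2 | h2
          · left; omega
          · right; omega
        · rw [h.1]
          exact Or.inr h.2
      · intro hne
        rcases length_red (T := T) hg hS i1 with h | h
        · intro h3
          rw [h3] at h
          simp only [List.length_nil] at h
          omega
        · rw [h.1]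
          exact i3 hne
  obtain ⟨i1, i2, i3⟩ := key S.length
  unfold test
  simp only
  set s := (red l T)^[S.length] (S, true) with hs
  rw [i1.fp, Bool.and_eq_true]
  by_cases hS0 : S = []
  · subst hS0
    have : s = ([], true) := hs
    rw [this]
    simp only [List.isEmpty_nil, Bool.not_true, Bool.false_eq_true, and_false, true_and, false_iff]
    exact not_FP_empty (by simp [st])
  · have h1 := i3 hS0
    have h2 : s.1.length = 1 := by
      have h4 : 0 < s.1.length := List.length_pos_iff.2 h1
      rcases i2 with h | h <;> omega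
    obtain ⟨c, hc⟩ := List.length_eq_one_iff.1 h2
    have h3 : FP (rl l) (st s.1) := by
      rw [hc]
      exact FP_single (c := c) (by simp [st]) (by simp [st])
    simp [h3, h1]

theorem nodup_upp (l : ℕ → ℕ → Bool) (n : ℕ) (p : ℕ × ℕ) : (upp l n p).Nodup :=
  List.nodup_range.filter _

theorem mem_upp {l : ℕ → ℕ → Bool} {n : ℕ} {p : ℕ × ℕ} {x : ℕ} :
    x ∈ upp l n p ↔ x < n ∧ l p.1 x = true ∧ l p.2 x = true := by
  unfold upp
  simp [List.mem_filter]

theorem mem_prs {n : ℕ} {p : ℕ × ℕ} : p ∈ prs n ↔ p.1 < n ∧ p.2 < n := by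
  unfold prs
  simp only [List.mem_flatMap, List.mem_map, List.mem_range]
  constructor
  · rintro ⟨a, ha, b, hb, rfl⟩
    exact ⟨ha, hb⟩
  · rintro ⟨h1, h2⟩
    exact ⟨p.1, h1, p.2, h2, rfl⟩

theorem length_upp_lt {l : ℕ → ℕ → Bool} {n : ℕ} (hg : Good l n) {S : List ℕ}
    (hup : ∀ x ∈ S, ∀ y, l x y = true → y ∈ S) {m m' : ℕ} (hm : m ∈ S) :
    (upp l n (m, m')).length < S.length := by
  have hmn : m ∉ upp l n (m, m') := by
    rw [mem_upp]
    exact fun h => hg.irr _ h.2.1
  have hnd : (m :: upp l n (m, m')).Nodup := List.nodup_cons.2 ⟨hmn, nodup_upp _ _ _⟩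
  have hsub : (m :: upp l n (m, m')) ⊆ S := by
    intro x hx
    rcases List.mem_cons.1 hx with rfl | hx
    · exact hm
    · exact hup m hm x (mem_upp.1 hx).2.1
  have := (List.subperm_of_subset hnd hsub).length_le
  rw [List.length_cons] at this
  omega

theorem round_correct {l : ℕ → ℕ → Bool} {n : ℕ} (hg : Good l n) (k : ℕ) :
    ∀ p : ℕ × ℕ, p.1 < n → p.2 < n → (upp l n p).length < k →
      (p ∈ (round l n)^[k] [] ↔ FP (rl l) (st (upp l n p))) := by
  induction k with
  | zero => intro p _ _ h; omega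
  | succ k ih =>
    intro p h1 h2 hlen
    rw [Function.iterate_succ_apply']
    unfold round
    rw [List.mem_filter, and_iff_right (mem_prs.2 ⟨h1, h2⟩)]
    have hup : ∀ x ∈ upp l n p, ∀ y, l x y = true → y ∈ upp l n p := by
      intro x hx y hxy
      rw [mem_upp] at hx ⊢
      exact ⟨(hg.lt _ _ hxy).2, hg.tr _ _ _ hx.2.1 hxy, hg.tr _ _ _ hx.2.2 hxy⟩
    refine test_correct hg (nodup_upp _ _ _) (fun x hx => (mem_upp.1 hx).1) hup ?_
    intro m hm m' hm'
    refine ih (m, m') (mem_upp.1 hm).1 (mem_upp.1 hm').1 ?_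
    have := length_upp_lt hg hup (m' := m') hm
    omega

/-- The decision procedure is correct. -/
theorem decideFP_correct {l : ℕ → ℕ → Bool} {n : ℕ} (hg : Good l n) :
    decideFP l n = true ↔ FP (rl l) {x | x < n} := by
  have h1 : decideFP l n = true ↔ FP (rl l) (st (List.range n)) := by
    unfold decideFP
    have hup : ∀ x ∈ List.range n, ∀ y, l x y = true → y ∈ List.range n := by
      intro x _ y hxy
      exact List.mem_range.2 (hg.lt _ _ hxy).2
    refine test_correct hg List.nodup_range (fun x hx => List.mem_range.1 hx) hup ?_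
    intro m hm m' hm'
    refine round_correct hg n (m, m') (List.mem_range.1 hm) (List.mem_range.1 hm') ?_
    have := length_upp_lt hg hup (m' := m') hm
    rwa [List.length_range] at this
  rw [h1]
  exact FP_congr fun x => by simp [st]

end Pool.Agent.N599.FPP
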