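import Mathlib

/-!
# The fixed point property: deletion of irreducible and of minimal retractable points
-/

set_option autoImplicit false

namespace Pool.Agent.N599.FPP

/-- The fixed point property of the set `S` with the strict order `lt`. -/
def FP (lt : ℕ → ℕ → Prop) (S : Set ℕ) : Prop :=
  ∀ f : ℕ → ℕ, (∀ x ∈ S, f x ∈ S) →
    (∀ x ∈ S, ∀ y ∈ S, lt x y → lt (f x) (f y) ∨ f x = f y) → ∃ x ∈ S, f x = x

variable {lt : ℕ → ℕ → Prop}

theorem FP_congr {S S' : Set ℕ} (h : ∀ x, x ∈ S ↔ x ∈ S') : FP lt S ↔ FP lt S' := by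
  have : S = S' := Set.ext h
  rw [this]

theorem not_FP_empty {S : Set ℕ} (h : ∀ x, x ∉ S) : ¬ FP lt S := by
  intro hf
  obtain ⟨x, hx, _⟩ := hf id (fun x hx => hx) (fun x _ y _ h => Or.inl h)
  exact h x hx

theorem FP_single {S : Set ℕ} {c : ℕ} (hc : c ∈ S) (h : ∀ x ∈ S, x = c) : FP lt S := by
  intro f hf _
  exact ⟨c, hc, h _ (hf c hc)⟩

/-- In a finite order, a monotone map with `x ≤ f x` for some `x` has a fixed point. -/
theorem exists_fixed {S : Set ℕ} (hS : S.Finite) (irr : ∀ x, ¬ lt x x)
    (tr : ∀ x y z, lt x y → lt y z → lt x z)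
    (f : ℕ → ℕ) (hf : ∀ x ∈ S, f x ∈ S)
    (hm : ∀ x ∈ S, ∀ y ∈ S, lt x y → lt (f x) (f y) ∨ f x = f y)
    (x : ℕ) (hx : x ∈ S) (h : lt x (f x) ∨ f x = x) : ∃ x ∈ S, f x = x := by
  by_contra hcon
  push Not at hcon
  have key : ∀ k : ℕ, f^[k] x ∈ S ∧ lt (f^[k] x) (f^[k + 1] x) := by
    intro k
    induction k with
    | zero =>
      refine ⟨hx, ?_⟩
      rcases h with h | h
      · simpa using h
      · exact absurd h (hcon x hx)
    | succ k ih =>
      have h1 : f^[k + 1] x ∈ S := by
        rw [Function.iterate_succ_apply']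
        exact hf _ ih.1
      refine ⟨h1, ?_⟩
      have h2 := hm _ ih.1 _ h1 ih.2
      rw [← Function.iterate_succ_apply' f k x, ← Function.iterate_succ_apply' f (k + 1) x] at h2
      rcases h2 with h2 | h2
      · exact h2
      · exact absurd h2.symm (by rw [Function.iterate_succ_apply']; exact hcon _ h1)
  have hlt : ∀ i j : ℕ, i < j → lt (f^[i] x) (f^[j] x) := by
    intro i j hij
    obtain ⟨d, rfl⟩ : ∃ d, j = i + 1 + d := ⟨j - (i + 1), by omega⟩
    clear hij
    induction d with
    | zero => exact (key i).2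
    | succ d ih => exact tr _ _ _ ih (key (i + 1 + d)).2
  have hinj : Function.Injective (fun k : ℕ => f^[k] x) := by
    intro i j hij
    by_contra hne
    rcases Nat.lt_or_gt_of_ne hne with h | h
    · have := hlt i j h
      simp only at hij
      rw [hij] at this
      exact irr _ this
    · have := hlt j i h
      simp only at hij
      rw [hij] at this
      exact irr _ this
  exact Set.infinite_of_injective_forall_mem hinj (fun k => (key k).1) hS

/-- Deleting a point `w` whose only strict lower bound is `c`. -/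
theorem FP_irreducible {S : Set ℕ} (hS : S.Finite) (irr : ∀ x, ¬ lt x x)
    (tr : ∀ x y z, lt x y → lt y z → lt x z) {w c : ℕ} (hw : w ∈ S) (hc : c ∈ S) (hcw : lt c w)
    (h : ∀ z ∈ S, lt z w → z = c) : FP lt S ↔ FP lt (S \ {w}) := by
  have hne : c ≠ w := by rintro rfl; exact irr _ hcw
  classical
  let r : ℕ → ℕ := fun x => if x = w then c else x
  have hrS : ∀ x ∈ S, r x ∈ S \ {w} := by
    intro x hx
    by_cases hxw : x = w
    · simp only [r, hxw, if_true]
      exact ⟨hc, hne⟩
    · simp only [r, if_neg hxw]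
      exact ⟨hx, hxw⟩
  have hr : ∀ x, x ≠ w → r x = x := fun x hx => by simp only [r, if_neg hx]
  have hrw : r w = c := by simp [r]
  have hrm : ∀ x ∈ S, ∀ y ∈ S, lt x y → lt (r x) (r y) ∨ r x = r y := by
    intro x hx y hy hxy
    by_cases hxw : x = w
    · subst hxw
      have hyx : y ≠ x := by rintro rfl; exact irr _ hxy
      rw [hr y hyx, hrw]
      exact Or.inl (tr _ _ _ hcw hxy)
    · by_cases hyw : y = w
      · subst hyw
        rw [hr x hxw, hrw]
        exact Or.inr (h x hx hxy)
      · rw [hr x hxw, hr y hyw]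
        exact Or.inl hxy
  constructor
  · intro hFP f hf hm
    obtain ⟨x, hx, hfx⟩ := hFP (fun x => f (r x)) (fun x hx => (hf _ (hrS x hx)).1) (by
      intro x hx y hy hxy
      rcases hrm x hx y hy hxy with h1 | h1
      · exact hm _ (hrS x hx) _ (hrS y hy) h1
      · exact Or.inr (by rw [h1]))
    have h1 : x ∈ S \ {w} := by
      have := hf _ (hrS x hx)
      rw [hfx] at this
      exact this
    refine ⟨x, h1, ?_⟩
    have h2 : x ≠ w := h1.2
    rwa [hr x h2] at hfx
  · intro hFP f hf hm
    obtain ⟨x, hx, hfx⟩ := hFP (fun x => r (f x)) (fun x hx => hrS _ (hf x hx.1)) (by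
      intro x hx y hy hxy
      rcases hm x hx.1 y hy.1 hxy with h1 | h1
      · exact hrm _ (hf x hx.1) _ (hf y hy.1) h1
      · exact Or.inr (by rw [h1]))
    by_cases h1 : f x = w
    · simp only [h1, hrw] at hfx
      subst hfx
      exact exists_fixed hS irr tr f hf hm _ hx.1 (Or.inl (by rw [h1]; exact hcw))
    · simp only [hr _ h1] at hfx
      exact ⟨x, hx.1, hfx⟩

/-- Deleting a minimal point `m` all of whose strict upper bounds lie above another point `m'`. -/
theorem FP_minimal {S : Set ℕ} (irr : ∀ x, ¬ lt x x)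
    (tr : ∀ x y z, lt x y → lt y z → lt x z) {m m' : ℕ} (hm : m ∈ S) (hm' : m' ∈ S) (hne : m' ≠ m) (hmin : ∀ z ∈ S, ¬ lt z m)
    (hup : ∀ x ∈ S, lt m x → lt m' x) :
    FP lt S ↔ FP lt (S \ {m}) ∧ FP lt {x | x ∈ S ∧ lt m x} := by
  classical
  let r : ℕ → ℕ := fun x => if x = m then m' else x
  have hrS : ∀ x ∈ S, r x ∈ S \ {m} := by
    intro x hx
    by_cases hxw : x = m
    · simp only [r, hxw, if_true]
      exact ⟨hm', hne⟩
    · simp only [r, if_neg hxw]
      exact ⟨hx, hxw⟩
  have hr : ∀ x, x ≠ m → r x = x := fun x hx => by simp only [r, if_neg hx]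
  have hrw : r m = m' := by simp [r]
  have hrm : ∀ x ∈ S, ∀ y ∈ S, lt x y → lt (r x) (r y) ∨ r x = r y := by
    intro x hx y hy hxy
    have hyw : y ≠ m := by
      rintro rfl
      exact hmin x hx hxy
    by_cases hxw : x = m
    · subst hxw
      rw [hr y hyw, hrw]
      exact Or.inl (hup y hy hxy)
    · rw [hr x hxw, hr y hyw]
      exact Or.inl hxy
  constructor
  · intro hFP
    constructor
    · intro f hf hfm
      obtain ⟨x, hx, hfx⟩ := hFP (fun x => f (r x)) (fun x hx => (hf _ (hrS x hx)).1) (by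
        intro x hx y hy hxy
        rcases hrm x hx y hy hxy with h1 | h1
        · exact hfm _ (hrS x hx) _ (hrS y hy) h1
        · exact Or.inr (by rw [h1]))
      have h1 : x ∈ S \ {m} := by
        have := hf _ (hrS x hx)
        rw [hfx] at this
        exact this
      refine ⟨x, h1, ?_⟩
      have h2 : x ≠ m := h1.2
      rwa [hr x h2] at hfx
    · intro g hg hgm
      by_contra hcon
      push Not at hcon
      let f : ℕ → ℕ := fun x => if x ∈ S ∧ lt m x then g x else if x = m then m' else m
      have f1 : ∀ x, (x ∈ S ∧ lt m x) → f x = g x := fun x hx => by simp only [f, if_pos hx]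
      have f2 : f m = m' := by
        have : ¬ (m ∈ S ∧ lt m m) := fun h => irr _ h.2
        simp only [f, if_neg this, if_true]
      have f3 : ∀ x, ¬ (x ∈ S ∧ lt m x) → x ≠ m → f x = m := fun x hx hxm => by
        simp only [f, if_neg hx, if_neg hxm]
      obtain ⟨x, hx, hfx⟩ := hFP f (by
        intro x hx
        by_cases h1 : x ∈ S ∧ lt m x
        · rw [f1 x h1]; exact (hg x h1).1
        · by_cases h2 : x = m
          · rw [h2, f2]; exact hm'
          · rw [f3 x h1 h2]; exact hm) (by
        intro x hx y hy hxy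
        have hym : y ≠ m := by
          rintro rfl
          exact hmin x hx hxy
        by_cases hy1 : y ∈ S ∧ lt m y
        · rw [f1 y hy1]
          by_cases hx1 : x ∈ S ∧ lt m x
          · rw [f1 x hx1]
            exact hgm x hx1 y hy1 hxy
          · by_cases hx2 : x = m
            · rw [hx2, f2]
              exact Or.inl (hup _ (hg y hy1).1 (hg y hy1).2)
            · rw [f3 x hx1 hx2]
              exact Or.inl (hg y hy1).2
        · rw [f3 y hy1 hym]
          by_cases hx1 : x ∈ S ∧ lt m x
          · exact absurd ⟨hy, tr _ _ _ hx1.2 hxy⟩ hy1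
          · by_cases hx2 : x = m
            · subst hx2
              exact absurd ⟨hy, hxy⟩ hy1
            · rw [f3 x hx1 hx2]
              exact Or.inr rfl)
      by_cases h1 : x ∈ S ∧ lt m x
      · rw [f1 x h1] at hfx
        exact hcon x h1 hfx
      · by_cases h2 : x = m
        · rw [h2, f2] at hfx
          exact hne hfx
        · rw [f3 x h1 h2] at hfx
          exact h2 hfx.symm
  · rintro ⟨hF1, hF2⟩ f hf hfm
    obtain ⟨x, hx, hfx⟩ := hF1 (fun x => r (f x)) (fun x hx => hrS _ (hf x hx.1)) (by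
      intro x hx y hy hxy
      rcases hfm x hx.1 y hy.1 hxy with h1 | h1
      · exact hrm _ (hf x hx.1) _ (hf y hy.1) h1
      · exact Or.inr (by rw [h1]))
    by_cases h1 : f x = m
    · simp only [h1, hrw] at hfx
      subst hfx
      -- now `f m' = m`
      by_cases hc : ∃ y ∈ S, lt m y ∧ f y = m
      · obtain ⟨y, hy, hmy, hfy⟩ := hc
        rcases hfm m hm y hy hmy with h2 | h2
        · rw [hfy] at h2
          exact absurd h2 (hmin _ (hf m hm))
        · exact ⟨m, hm, by rw [h2, hfy]⟩
      · push Not at hc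
        obtain ⟨y, hy, hfy⟩ := hF2 f (by
          rintro y ⟨hy, hmy⟩
          refine ⟨hf y hy, ?_⟩
          rcases hfm m' hx.1 y hy (hup y hy hmy) with h2 | h2
          · rwa [h1] at h2
          · exact absurd (by rw [← h2, h1]) (hc y hy hmy)) (by
          rintro y ⟨hy, _⟩ z ⟨hz, _⟩ hyz
          exact hfm y hy z hz hyz)
        exact ⟨y, hy.1, hfy⟩
    · simp only [hr _ h1] at hfx
      exact ⟨x, hx.1, hfx⟩

end Pool.Agent.N599.FPP
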