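import Pool.Agent.N599.FPP.Algo
import Pool.Agent.H532R2.IntPoly

/-!
# The decision procedure runs in polynomial time
-/

set_option autoImplicit false

namespace Pool.Agent.NPC.N599FPP

open Pool.Agent.N599.FPP

variable {α β : Type} [TEnc α] [TEnc β]

/-- The strict order given by a comparability table. -/
def ltM (M : List (List Bool)) (i j : ℕ) : Bool := (M.getD i []).getD j false && !(decide (i = j))

theorem ltM_poly {M : α → List (List Bool)} {i j : α → ℕ} (hM : Poly M) (hi : Poly i)
    (hj : Poly j) : Poly (fun a => ltM (M a) (i a) (j a)) :=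
  Poly.and (Poly.getD (Poly.getD hM hi (Poly.const _)) hj (Poly.const _))
    (Poly.not (Poly.decide_eq hi hj))

theorem cand1_poly {M : α → List (List Bool)} {X : α → List ℕ} (hM : Poly M) (hX : Poly X) :
    Poly (fun a => cand1 (ltM (M a)) (X a)) := by
  unfold cand1
  refine Poly.filter (p := fun a w => decide ((((X a).filter fun z => ltM (M a) z w)).length = 1)) hX ?_
  refine Poly.decide_eq (Poly.length ?_) (Poly.const 1)
  refine Poly.filter (α := α × ℕ) (p := fun q z => ltM (M q.1) z q.2) (hX.comp (Poly.fst Poly.id)) ?_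
  exact ltM_poly (hM.comp (Poly.fst (Poly.fst Poly.id))) (Poly.snd Poly.id)
    (Poly.snd (Poly.fst Poly.id))

theorem prod_poly {X Y : α → List ℕ} (hX : Poly X) (hY : Poly Y) :
    Poly (fun a => (X a).flatMap fun m => (Y a).map fun m' => (m, m')) := by
  refine Poly.flatMap (F := fun a m => (Y a).map fun m' => (m, m')) hX ?_
  refine Poly.map (α := α × ℕ) (F := fun q m' => (q.2, m')) (hY.comp (Poly.fst Poly.id)) ?_
  exact Poly.pair (Poly.snd (Poly.fst Poly.id)) (Poly.snd Poly.id)

theorem cand2_poly {M : α → List (List Bool)} {X : α → List ℕ} (hM : Poly M) (hX : Poly X) :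
    Poly (fun a => cand2 (ltM (M a)) (X a)) := by
  unfold cand2
  refine Poly.filter (p := fun a (p : ℕ × ℕ) => (!(decide (p.1 = p.2)) &&
    (X a).all (fun z => !(ltM (M a) z p.1))) &&
      (X a).all (fun x => !(ltM (M a) p.1 x) || ltM (M a) p.2 x)) (prod_poly hX hX) ?_
  refine Poly.and (Poly.and (Poly.not (Poly.decide_eq (Poly.fst (Poly.snd Poly.id))
    (Poly.snd (Poly.snd Poly.id)))) ?_) ?_
  · refine Poly.all (α := α × ℕ × ℕ) (p := fun q z => !(ltM (M q.1) z q.2.1))
      (hX.comp (Poly.fst Poly.id)) (Poly.not ?_)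
    exact ltM_poly (hM.comp (Poly.fst (Poly.fst Poly.id))) (Poly.snd Poly.id)
      (Poly.fst (Poly.snd (Poly.fst Poly.id)))
  · refine Poly.all (α := α × ℕ × ℕ) (p := fun q x => !(ltM (M q.1) q.2.1 x) || ltM (M q.1) q.2.2 x)
      (hX.comp (Poly.fst Poly.id)) (Poly.or (Poly.not ?_) ?_)
    · exact ltM_poly (hM.comp (Poly.fst (Poly.fst Poly.id)))
        (Poly.fst (Poly.snd (Poly.fst Poly.id))) (Poly.snd Poly.id)
    · exact ltM_poly (hM.comp (Poly.fst (Poly.fst Poly.id)))
        (Poly.snd (Poly.snd (Poly.fst Poly.id))) (Poly.snd Poly.id)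

theorem ne_poly {X : α → List ℕ} {w : α → ℕ} (hX : Poly X) (hw : Poly w) :
    Poly (fun a => (X a).filter (fun x => !(decide (x = w a)))) :=
  Poly.filter (p := fun a x => !(decide (x = w a))) hX
    (Poly.not (Poly.decide_eq (Poly.snd Poly.id) (hw.comp (Poly.fst Poly.id))))

/-- The second case of a step. -/
def red2 (l : ℕ → ℕ → Bool) (T : List (ℕ × ℕ)) (s : List ℕ × Bool) : List ℕ × Bool :=
  match cand2 l s.1 with
  | [] => s
  | p :: _ => (s.1.filter (fun x => !(decide (x = p.1))), s.2 && decide (p ∈ T))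

theorem red_poly {M : α → List (List Bool)} {T : α → List (ℕ × ℕ)} {s : α → List ℕ × Bool}
    (hM : Poly M) (hT : Poly T) (hs : Poly s) : Poly (fun a => red (ltM (M a)) (T a) (s a)) := by
  have h2 : Poly (fun a => red2 (ltM (M a)) (T a) (s a)) := by
    refine (Poly.listCases (g := s) (h := fun a (p : ℕ × ℕ) _ =>
      ((s a).1.filter (fun x => !(decide (x = p.1))), (s a).2 && decide (p ∈ T a)))
      (cand2_poly hM (Poly.fst hs)) hs ?_).congr fun a => ?_
    · refine Poly.pair ?_ ?_
      · exact ne_poly (Poly.fst (hs.comp (Poly.fst Poly.id))) (Poly.fst (Poly.fst (Poly.snd Poly.id)))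
      · exact Poly.and (Poly.snd (hs.comp (Poly.fst Poly.id)))
          ((Poly.decide_mem (Poly.fst (Poly.snd Poly.id)) (hT.comp (Poly.fst Poly.id))).congr
            fun a => decide_eq_decide.2 Iff.rfl)
    · unfold red2
      cases cand2 (ltM (M a)) (s a).1 <;> rfl
  refine (Poly.listCases (g := fun a => red2 (ltM (M a)) (T a) (s a))
    (h := fun a (w : ℕ) _ => ((s a).1.filter (fun x => !(decide (x = w))), (s a).2))
    (cand1_poly hM (Poly.fst hs)) h2 ?_).congr fun a => ?_
  · exact Poly.pair (ne_poly (Poly.fst (hs.comp (Poly.fst Poly.id))) (Poly.fst (Poly.snd Poly.id)))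
      (Poly.snd (hs.comp (Poly.fst Poly.id)))
  · unfold red red2
    cases cand1 (ltM (M a)) (s a).1 with
    | nil => cases cand2 (ltM (M a)) (s a).1 <;> rfl
    | cons => rfl

theorem sz_filter_le {γ : Type} [TEnc γ] (p : γ → Bool) (l : List γ) : sz (l.filter p) ≤ sz l := by
  induction l with
  | nil => simp
  | cons a l ih =>
    rw [List.filter_cons]
    split_ifs
    · simp only [sz_list_cons]; omega
    · simp only [sz_list_cons]; omega

theorem sz_red_le (l : ℕ → ℕ → Bool) (T : List (ℕ × ℕ)) (s : List ℕ × Bool) :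
    sz (red l T s).1 ≤ sz s.1 := by
  unfold red
  cases cand1 l s.1 with
  | nil =>
    cases cand2 l s.1 with
    | nil => exact le_rfl
    | cons p t => exact sz_filter_le _ _
  | cons w t => exact sz_filter_le _ _

theorem test_poly {M : α → List (List Bool)} {T : α → List (ℕ × ℕ)} {X : α → List ℕ}
    (hM : Poly M) (hT : Poly T) (hX : Poly X) : Poly (fun a => test (ltM (M a)) (T a) (X a)) := by
  obtain ⟨r, hr⟩ := hX.sz_le
  have h1 : Poly (fun a => (red (ltM (M a)) (T a))^[(X a).length] (X a, true)) := by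
    refine Poly.iterLen (F := fun a s => red (ltM (M a)) (T a) s) (s := fun a => (X a, true)) hX
      (Poly.pair hX (Poly.const true)) ?_ (r + Polynomial.C 4) ?_
    · exact red_poly (hM.comp (Poly.fst Poly.id)) (hT.comp (Poly.fst Poly.id)) (Poly.snd Poly.id)
    · intro a k _
      have key : ∀ k : ℕ, sz ((red (ltM (M a)) (T a))^[k] (X a, true)).1 ≤ sz (X a) := by
        intro k
        induction k with
        | zero => exact le_rfl
        | succ k ih =>
          rw [Function.iterate_succ_apply']
          exact (sz_red_le _ _ _).trans ih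
      have h2 := key k
      have h3 := hr a
      have h4 := sz_bool_le ((red (ltM (M a)) (T a))^[k] (X a, true)).2
      change sz ((red (ltM (M a)) (T a))^[k] (X a, true)) ≤ _
      rw [sz_pair]
      simp only [Polynomial.eval_add, Polynomial.eval_C]
      omega
  exact Poly.and (Poly.snd h1) (Poly.not (Poly.isEmpty (Poly.fst h1)))

theorem upp_poly {M : α → List (List Bool)} {n : α → ℕ} {p : α → ℕ × ℕ} (hM : Poly M)
    (hn : UPoly n) (hp : Poly p) : Poly (fun a => upp (ltM (M a)) (n a) (p a)) := by
  unfold upp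
  refine Poly.filter (p := fun a x => ltM (M a) (p a).1 x && ltM (M a) (p a).2 x) hn.range
    (Poly.and ?_ ?_)
  · exact ltM_poly (hM.comp (Poly.fst Poly.id)) (Poly.fst (hp.comp (Poly.fst Poly.id)))
      (Poly.snd Poly.id)
  · exact ltM_poly (hM.comp (Poly.fst Poly.id)) (Poly.snd (hp.comp (Poly.fst Poly.id)))
      (Poly.snd Poly.id)

theorem prs_poly {n : α → ℕ} (hn : UPoly n) : Poly (fun a => prs (n a)) :=
  prod_poly hn.range hn.range

theorem round_poly {M : α → List (List Bool)} {n : α → ℕ} {T : α → List (ℕ × ℕ)} (hM : Poly M)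
    (hn : UPoly n) (hT : Poly T) : Poly (fun a => round (ltM (M a)) (n a) (T a)) := by
  unfold Pool.Agent.N599.FPP.round
  refine Poly.filter (p := fun a p => test (ltM (M a)) (T a) (upp (ltM (M a)) (n a) p))
    (prs_poly hn) ?_
  exact test_poly (hM.comp (Poly.fst Poly.id)) (hT.comp (Poly.fst Poly.id))
    (upp_poly (hM.comp (Poly.fst Poly.id)) (hn.comp (Poly.fst Poly.id)) (Poly.snd Poly.id))

theorem decideFP_poly : Poly (fun M : List (List Bool) => decideFP (ltM M) M.length) := by
  unfold decideFP
  have hn : UPoly (fun M : List (List Bool) => M.length) := UPoly.length Poly.id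
  obtain ⟨r, hr⟩ := (prs_poly hn).sz_le
  refine test_poly (α := List (List Bool)) Poly.id ?_ hn.range
  refine Poly.iterLen (α := List (List Bool)) (F := fun M T => round (ltM M) M.length T)
    (s := fun _ => ([] : List (ℕ × ℕ))) Poly.id (Poly.const _) ?_ (r + Polynomial.C 1) ?_
  · exact round_poly (Poly.fst Poly.id) (hn.comp (Poly.fst Poly.id)) (Poly.snd Poly.id)
  · intro M k _
    simp only [Polynomial.eval_add, Polynomial.eval_C]
    cases k with
    | zero => simp
    | succ k =>
      rw [Function.iterate_succ_apply']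
      have h1 := sz_filter_le (fun p => test (ltM M) ((round (ltM M) M.length)^[k] [])
        (upp (ltM M) M.length p)) (prs M.length)
      have h2 := hr M
      unfold Pool.Agent.N599.FPP.round at *
      omega

end Pool.Agent.NPC.N599FPP
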